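import Mathlib

/-!
# Two sets whose sumset contains all sums of two standard basis vectors

If `B₀, B₁` are finite subsets of `ℚⁿ` whose sumset contains `e_i + e_j` for all `i ≤ j`, then
`|B₀| + |B₁| ≥ 2 n`.

Proof.  Put `b ∈ B₀` into the class of `b`, and `b ∈ B₁` into the class of `-b`, modulo `2 ℤⁿ`.
For `i ≠ j` the vector `e_i + e_j` is, up to sign, the difference of an unordered pair of classes,
and these pairs are different for different `{i, j}`; so there are at least `n` classes.  The two
summands of `2 e_i` are in the same class.  The vectors `2 e_i` which belong to one class with `p`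
elements of `B₀` and `q` elements of `B₁` are linearly independent vectors in a space of dimension
at most `p + q - 1`.  So the number of elements is at least `n` plus the number of classes.
-/

set_option autoImplicit false

open Finset

open scoped Pointwise

namespace Pool.Agent.Results.MP_267066_co.TwoSets

variable {n : ℕ}

/-- The lattice `2 ℤⁿ` in `ℚⁿ`. -/
def L (n : ℕ) : AddSubgroup (Fin n → ℚ) where
  carrier := {v | ∃ z : Fin n → ℤ, ∀ i, v i = 2 * (z i : ℚ)}
  zero_mem' := ⟨0, fun i => by simp⟩
  add_mem' := by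
    rintro a b ⟨x, hx⟩ ⟨y, hy⟩
    exact ⟨x + y, fun i => by simp [hx i, hy i]; ring⟩
  neg_mem' := by
    rintro a ⟨x, hx⟩
    exact ⟨-x, fun i => by simp [hx i]⟩

/-- The standard basis vectors. -/
abbrev e (i : Fin n) : Fin n → ℚ := Pi.single i 1

/-- the sum of the basis vectors with index in `s` -/
def es (s : Finset (Fin n)) : Fin n → ℚ := fun i => if i ∈ s then 1 else 0

lemma es_pair {i j : Fin n} (h : i ≠ j) : es {i, j} = e i + e j := by
  ext k
  simp only [es, mem_insert, mem_singleton, Pi.add_apply, e, Pi.single_apply]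
  by_cases h1 : k = i
  · subst h1; simp [h]
  · simp [h1]

lemma es_sub {s t : Finset (Fin n)} (h : es s - es t ∈ L n) : s = t := by
  obtain ⟨z, hz⟩ := h
  ext i
  have := hz i
  simp only [Pi.sub_apply, es] at this
  by_cases h1 : i ∈ s <;> by_cases h2 : i ∈ t <;> simp only [h1, h2, if_true, if_false] at this ⊢
  · exfalso
    have h3 : ((2 * z i - 1 : ℤ) : ℚ) = 0 := by push_cast; linarith
    have h4 : (2 * z i - 1 : ℤ) = 0 := by exact_mod_cast h3
    omega
  · exfalso
    have h3 : ((2 * z i + 1 : ℤ) : ℚ) = 0 := by push_cast; linarith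
    have h4 : (2 * z i + 1 : ℤ) = 0 := by exact_mod_cast h3
    omega

lemma es_add {s t : Finset (Fin n)} (h : es s + es t ∈ L n) : s = t := by
  apply es_sub
  have h2 : es t + es t ∈ L n := by
    refine ⟨fun i => if i ∈ t then 1 else 0, fun i => ?_⟩
    by_cases hi : i ∈ t <;> simp [es, hi]
    norm_num
  have : es s - es t = (es s + es t) - (es t + es t) := by abel
  rw [this]
  exact (L n).sub_mem h h2

lemma es_not_mem {s : Finset (Fin n)} (hs : s.Nonempty) : es s ∉ L n := by
  intro h
  have : es s - es ∅ ∈ L n := by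
    have h0 : es (∅ : Finset (Fin n)) = 0 := by ext i; simp [es]
    rw [h0, sub_zero]; exact h
  have := es_sub this
  subst this
  exact absurd hs (by simp)

lemma two_e_mem (i : Fin n) : e i + e i ∈ L n := by
  refine ⟨Pi.single i 1, fun k => ?_⟩
  by_cases h : k = i
  · subst h; simp; norm_num
  · simp [Pi.single_apply, h]

open Classical in
/-- The bound of the number of classes. -/
lemma classes (C : Finset ((Fin n → ℚ) ⧸ L n)) (hn : 2 ≤ n)
    (h : ∀ s ∈ (univ : Finset (Fin n)).powersetCard 2,
      ∃ a b : Fin n → ℚ, (QuotientAddGroup.mk a : (Fin n → ℚ) ⧸ L n) ∈ C ∧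
        (QuotientAddGroup.mk (-b) : (Fin n → ℚ) ⧸ L n) ∈ C ∧ a + b = es s) :
    n ≤ C.card := by
  choose! a b ha hb hab using h
  have key : ((univ : Finset (Fin n)).powersetCard 2).card ≤ (C.powersetCard 2).card := by
    apply Finset.card_le_card_of_injOn
      (fun s => {(QuotientAddGroup.mk (a s) : (Fin n → ℚ) ⧸ L n), QuotientAddGroup.mk (-(b s))})
    · intro s hs
      have hs' := hs
      simp only [mem_coe] at hs'
      simp only [mem_coe, mem_powersetCard]
      refine ⟨?_, ?_⟩
      · intro x hx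
        simp only [mem_insert, mem_singleton] at hx
        rcases hx with rfl | rfl
        · exact ha s hs'
        · exact hb s hs'
      · rw [card_pair]
        intro heq
        rw [QuotientAddGroup.eq] at heq
        have h1 : -(a s) + -(b s) = -(es s) := by rw [← hab s hs']; abel
        rw [h1] at heq
        have h2 := (L n).neg_mem heq
        rw [neg_neg] at h2
        refine es_not_mem ?_ h2
        rw [← card_pos, (mem_powersetCard.1 hs').2]; norm_num
    · intro s hs t ht hst
      simp only [mem_coe] at hs ht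
      have hpair : ({(QuotientAddGroup.mk (a s) : (Fin n → ℚ) ⧸ L n), QuotientAddGroup.mk (-(b s))} :
          Finset _) = {QuotientAddGroup.mk (a t), QuotientAddGroup.mk (-(b t))} := hst
      have hsym : (QuotientAddGroup.mk (a s) : (Fin n → ℚ) ⧸ L n) = QuotientAddGroup.mk (a t) ∧
          (QuotientAddGroup.mk (-(b s)) : (Fin n → ℚ) ⧸ L n) = QuotientAddGroup.mk (-(b t)) ∨
          (QuotientAddGroup.mk (a s) : (Fin n → ℚ) ⧸ L n) = QuotientAddGroup.mk (-(b t)) ∧
          (QuotientAddGroup.mk (-(b s)) : (Fin n → ℚ) ⧸ L n) = QuotientAddGroup.mk (a t) := by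
        have h1 : (QuotientAddGroup.mk (a s) : (Fin n → ℚ) ⧸ L n) ∈
            ({QuotientAddGroup.mk (a t), QuotientAddGroup.mk (-(b t))} : Finset _) := by
          rw [← hpair]; simp
        have h2 : (QuotientAddGroup.mk (-(b s)) : (Fin n → ℚ) ⧸ L n) ∈
            ({QuotientAddGroup.mk (a t), QuotientAddGroup.mk (-(b t))} : Finset _) := by
          rw [← hpair]; simp
        have h3 : (QuotientAddGroup.mk (a t) : (Fin n → ℚ) ⧸ L n) ∈
            ({QuotientAddGroup.mk (a s), QuotientAddGroup.mk (-(b s))} : Finset _) := by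
          rw [hpair]; simp
        have h4 : (QuotientAddGroup.mk (-(b t)) : (Fin n → ℚ) ⧸ L n) ∈
            ({QuotientAddGroup.mk (a s), QuotientAddGroup.mk (-(b s))} : Finset _) := by
          rw [hpair]; simp
        simp only [mem_insert, mem_singleton] at h1 h2 h3 h4
        rcases h1 with h1 | h1
        · rcases h2 with h2 | h2
          · rcases h4 with h4 | h4
            · left; exact ⟨h1, by rw [h2, h4, h1]⟩
            · left; exact ⟨h1, h4.symm⟩
          · left; exact ⟨h1, h2⟩
        · rcases h2 with h2 | h2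
          · right; exact ⟨h1, h2⟩
          · rcases h3 with h3 | h3
            · right; exact ⟨h1, by rw [h2, h3, h1]⟩
            · right; exact ⟨h1, h3.symm⟩
      rcases hsym with ⟨h1, h2⟩ | ⟨h1, h2⟩
      · rw [QuotientAddGroup.eq] at h1 h2
        have h3 := (L n).sub_mem h1 h2
        have h4 : -(a s) + a t - (-(-(b s)) + -(b t)) = -(es s - es t) := by
          rw [← hab s hs, ← hab t ht]; abel
        rw [h4] at h3
        have h5 := (L n).neg_mem h3
        rw [neg_neg] at h5
        exact es_sub h5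
      · rw [QuotientAddGroup.eq] at h1 h2
        have h3 := (L n).sub_mem h1 h2
        have h4 : -(a s) + -(b t) - (-(-(b s)) + a t) = -(es s + es t) := by
          rw [← hab s hs, ← hab t ht]; abel
        rw [h4] at h3
        have h5 := (L n).neg_mem h3
        rw [neg_neg] at h5
        exact es_add h5
  rw [card_powersetCard, card_powersetCard, card_univ, Fintype.card_fin] at key
  by_contra hlt
  push Not at hlt
  have h1 : C.card.choose 2 ≤ (n - 1).choose 2 := Nat.choose_le_choose 2 (by omega)
  have h2 : n.choose 2 = (n - 1).choose 1 + (n - 1).choose 2 := by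
    obtain ⟨m, rfl⟩ : ∃ m, n = m + 1 := ⟨n - 1, by omega⟩
    rw [Nat.choose_succ_succ' m 1]; simp
  rw [Nat.choose_one_right] at h2
  omega

open Classical in
/-- The bound for one class. -/
lemma one_class (P Q : Finset (Fin n → ℚ)) (I : Finset (Fin n)) (hI : I.Nonempty)
    (h : ∀ i ∈ I, ∃ x ∈ P, ∃ y ∈ Q, x + y = e i + e i) :
    I.card + 1 ≤ P.card + Q.card := by
  obtain ⟨i0, hi0⟩ := hI
  obtain ⟨-, -, β, hβ, -⟩ := h i0 hi0
  set W : Finset (Fin n → ℚ) := P.image (fun x => x + β) ∪ (Q.erase β).image (fun y => y - β)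
    with hW
  have hWc : W.card + 1 ≤ P.card + Q.card := by
    have h1 : W.card ≤ (P.image (fun x => x + β)).card + ((Q.erase β).image (fun y => y - β)).card :=
      card_union_le _ _
    have h2 : (P.image (fun x => x + β)).card ≤ P.card := card_image_le
    have h3 : ((Q.erase β).image (fun y => y - β)).card ≤ (Q.erase β).card := card_image_le
    have h4 : (Q.erase β).card + 1 = Q.card := card_erase_add_one hβ
    omega
  have hmem : ∀ i : I, (e (i : Fin n) + e (i : Fin n) : Fin n → ℚ) ∈
      Submodule.span ℚ (W : Set (Fin n → ℚ)) := by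
    rintro ⟨i, hi⟩
    obtain ⟨x, hx, y, hy, hxy⟩ := h i hi
    have h1 : (x + β) ∈ Submodule.span ℚ (W : Set (Fin n → ℚ)) := by
      apply Submodule.subset_span
      rw [mem_coe, hW, mem_union]; left
      exact mem_image_of_mem _ hx
    have h2 : (y - β) ∈ Submodule.span ℚ (W : Set (Fin n → ℚ)) := by
      by_cases hyb : y = β
      · rw [hyb, sub_self]; exact Submodule.zero_mem _
      · apply Submodule.subset_span
        rw [mem_coe, hW, mem_union]; right
        exact mem_image_of_mem _ (mem_erase.2 ⟨hyb, hy⟩)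
    have h3 : (e i + e i : Fin n → ℚ) = (x + β) + (y - β) := by rw [← hxy]; abel
    show (e i + e i : Fin n → ℚ) ∈ _
    rw [h3]
    exact Submodule.add_mem _ h1 h2
  have hli : LinearIndependent ℚ (fun i : I => (e (i : Fin n) + e (i : Fin n) : Fin n → ℚ)) := by
    have hb : LinearIndependent ℚ (fun i : Fin n => (e i : Fin n → ℚ)) := by
      have := (Pi.basisFun ℚ (Fin n)).linearIndependent
      have h2 : (fun i : Fin n => (e i : Fin n → ℚ)) = ⇑(Pi.basisFun ℚ (Fin n)) := by
        ext i; simp [e]
      rw [h2]; exact this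
    have hb2 : LinearIndependent ℚ (fun i : I => (e (i : Fin n) : Fin n → ℚ)) :=
      hb.comp (fun i : I => (i : Fin n)) Subtype.val_injective
    have hb3 := hb2.units_smul (fun _ : I => Units.mk0 (2 : ℚ) (by norm_num))
    have h4 : (fun i : I => (e (i : Fin n) + e (i : Fin n) : Fin n → ℚ)) =
        ((fun _ : I => Units.mk0 (2 : ℚ) (by norm_num)) • fun i : I => (e (i : Fin n) : Fin n → ℚ)) := by
      ext i k
      simp only [Pi.smul_apply', Pi.add_apply, Units.smul_def, Units.val_mk0, Pi.smul_apply,
        smul_eq_mul]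
      ring
    rw [h4]; exact hb3
  -- linear independence inside the span
  let f : I → Submodule.span ℚ (W : Set (Fin n → ℚ)) := fun i => ⟨_, hmem i⟩
  have hf : LinearIndependent ℚ f := by
    apply LinearIndependent.of_comp (Submodule.span ℚ (W : Set (Fin n → ℚ))).subtype
    exact hli
  have hfin : Module.Finite ℚ (Submodule.span ℚ (W : Set (Fin n → ℚ))) :=
    FiniteDimensional.span_finset ℚ W
  have h5 := hf.fintype_card_le_finrank
  have h6 : Module.finrank ℚ (Submodule.span ℚ (W : Set (Fin n → ℚ))) ≤ W.card :=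
    finrank_span_finset_le_card W
  rw [Fintype.card_coe] at h5
  omega

open Classical in
/-- Two finite sets of rational vectors whose sumset contains all sums `e_i + e_j`, `i ≤ j`, have
together at least `2 n` elements. -/
theorem result (n : ℕ) (B₀ B₁ : Finset (Fin n → ℚ))
    (h : ∀ i j : Fin n, i ≤ j → ∃ b₀ ∈ B₀, ∃ b₁ ∈ B₁,
      b₀ + b₁ = (Pi.single i 1 : Fin n → ℚ) + Pi.single j 1) :
    2 * n ≤ B₀.card + B₁.card := by
  rcases Nat.eq_zero_or_pos n with hn0 | hn0
  · subst hn0; omega
  have hall : ∀ i j : Fin n, ∃ b₀ ∈ B₀, ∃ b₁ ∈ B₁, b₀ + b₁ = (e i : Fin n → ℚ) + e j := by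
    intro i j
    rcases le_total i j with hij | hij
    · exact h i j hij
    · obtain ⟨b₀, h0, b₁, h1, h2⟩ := h j i hij
      exact ⟨b₀, h0, b₁, h1, by rw [h2]; exact add_comm _ _⟩
  set κ₀ : (Fin n → ℚ) → (Fin n → ℚ) ⧸ L n := fun b => QuotientAddGroup.mk b with hκ₀
  set κ₁ : (Fin n → ℚ) → (Fin n → ℚ) ⧸ L n := fun b => QuotientAddGroup.mk (-b) with hκ₁
  set C : Finset ((Fin n → ℚ) ⧸ L n) := B₀.image κ₀ ∪ B₁.image κ₁ with hC
  have hm0 : ∀ b ∈ B₀, κ₀ b ∈ C := fun b hb => mem_union_left _ (mem_image_of_mem _ hb)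
  have hm1 : ∀ b ∈ B₁, κ₁ b ∈ C := fun b hb => mem_union_right _ (mem_image_of_mem _ hb)
  choose x hx y hy hxy using fun i : Fin n => hall i i
  have hcl : ∀ i, κ₀ (x i) = κ₁ (y i) := by
    intro i
    show (QuotientAddGroup.mk (x i) : (Fin n → ℚ) ⧸ L n) = QuotientAddGroup.mk (-(y i))
    rw [QuotientAddGroup.eq]
    have h1 : -(x i) + -(y i) = -(e i + e i) := by rw [← hxy i]; abel
    rw [h1]
    exact (L n).neg_mem (two_e_mem i)
  -- number of classes
  have hCn : n ≤ C.card := by
    rcases Nat.lt_or_ge n 2 with h2 | h2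
    · have : 1 ≤ C.card := by
        rw [Nat.one_le_iff_ne_zero, ← Nat.pos_iff_ne_zero, card_pos]
        exact ⟨_, hm0 _ (hx ⟨0, hn0⟩)⟩
      omega
    · apply classes C h2
      intro s hs
      obtain ⟨-, hs2⟩ := mem_powersetCard.1 hs
      obtain ⟨i, j, hij, rfl⟩ := card_eq_two.1 hs2
      obtain ⟨a, ha, b, hb, hab⟩ := hall i j
      exact ⟨a, b, hm0 a ha, hm1 b hb, by rw [hab, es_pair hij]⟩
  -- decomposition into classes
  have hs0 : B₀.card = ∑ c ∈ C, (B₀.filter (fun b => κ₀ b = c)).card :=
    card_eq_sum_card_fiberwise hm0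
  have hs1 : B₁.card = ∑ c ∈ C, (B₁.filter (fun b => κ₁ b = c)).card :=
    card_eq_sum_card_fiberwise hm1
  have hsn : (univ : Finset (Fin n)).card =
      ∑ c ∈ C, ((univ : Finset (Fin n)).filter (fun i => κ₀ (x i) = c)).card :=
    card_eq_sum_card_fiberwise (fun i _ => hm0 _ (hx i))
  rw [card_univ, Fintype.card_fin] at hsn
  have hone : ∀ c ∈ C, ((univ : Finset (Fin n)).filter (fun i => κ₀ (x i) = c)).card + 1 ≤
      (B₀.filter (fun b => κ₀ b = c)).card + (B₁.filter (fun b => κ₁ b = c)).card := by
    intro c hc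
    rcases ((univ : Finset (Fin n)).filter (fun i => κ₀ (x i) = c)).eq_empty_or_nonempty with he | he
    · rw [he, card_empty]
      rcases mem_union.1 hc with hc | hc
      · obtain ⟨b, hb, hbc⟩ := mem_image.1 hc
        have : 0 < (B₀.filter (fun b => κ₀ b = c)).card :=
          card_pos.2 ⟨b, mem_filter.2 ⟨hb, hbc⟩⟩
        omega
      · obtain ⟨b, hb, hbc⟩ := mem_image.1 hc
        have : 0 < (B₁.filter (fun b => κ₁ b = c)).card :=
          card_pos.2 ⟨b, mem_filter.2 ⟨hb, hbc⟩⟩
        omega
    · apply one_class _ _ _ he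
      intro i hi
      have hi' := (mem_filter.1 hi).2
      refine ⟨x i, mem_filter.2 ⟨hx i, hi'⟩, y i, mem_filter.2 ⟨hy i, ?_⟩, hxy i⟩
      rw [← hcl i]; exact hi'
  have hsum := sum_le_sum hone
  rw [sum_add_distrib, sum_add_distrib, ← hsn, ← hs0, ← hs1, sum_const, smul_eq_mul, mul_one] at hsum
  omega

end Pool.Agent.Results.MP_267066_co.TwoSets
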